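import Pool.Agent.Lib.PolyCol.Final

/-!
# MP_4637ab_co, question Q1, answered in full: the least number of colours is 7

`PolyCol.PolygonColoring S` (see `Pool/Agent/Lib/PolyCol/Defs.lean`) is a polygon colouring of the Euclidean
plane `ℂ` with colour set `S`, and `C.degree v` is the number of borders of `C` ending at `v`.

The theorem says: `7` is the least `k` such that there is a polygon colouring with `k` colours in which every
vertex has degree at most `3`; and there is such a colouring with `7` colours all of whose regions are convex.

Main steps of the lower bound (six colours are impossible).  A triple point is a point in the closure of three
regions.  Unit circles around triple points avoid three colours; two unit circles can not cross transversally at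
a point if the colours allowed for them are complementary (the degrees are at most `3`).  A winding number
argument on the unit circle of a triple point `v` (three colours `c` with `c(t) ≠ c(t + 60 degrees)`) shows that for
two colours `α, β` not at `v` the number of triple points linked to `v` (one region of each of them at distance
less than `1`, same colour) and having both colours is odd.  An algebraic argument with 2-cycles modulo 2 on
the triples of six colours shows that this number is even.
-/

namespace Pool.Agent.Results.MP_4637ab_co.PolygonalSeven

open PolyCol

theorem result :
    IsLeast {k : ℕ | ∃ C : PolygonColoring (Fin k), ∀ v ∈ C.vertices, C.degree v ≤ 3} 7 ∧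
    ∃ C : PolygonColoring (Fin 7),
      (∀ v ∈ C.vertices, C.degree v ≤ 3) ∧ ∀ R ∈ C.regions, Convex ℝ R :=
  ⟨least_seven, exists_seven⟩

end Pool.Agent.Results.MP_4637ab_co.PolygonalSeven
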